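import Pool.Agent.K3h8.RS.Frob

/-!
# Project RS, brick APPROX
-/

set_option autoImplicit false

open NumberField IsDedekindDomain Polynomial

noncomputable section

namespace Pool.Agent.K3h8.RS

open Pool.Agent.K3h30.RS Pool.Agent.K3h43.RS

theorem mem_of_coprime {Λ : Type*} [CommGroup Λ] (K : Subgroup Λ) (g : Λ) (a b : ℕ)
    (h : a.Coprime b) (ha : g ^ a ∈ K) (hb : g ^ b ∈ K) : g ∈ K := by
  have h1 : ((g : Λ ⧸ K)) ^ a = 1 := by
    rw [← QuotientGroup.mk_pow]; exact (QuotientGroup.eq_one_iff _).mpr ha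
  have h2 : ((g : Λ ⧸ K)) ^ b = 1 := by
    rw [← QuotientGroup.mk_pow]; exact (QuotientGroup.eq_one_iff _).mpr hb
  have h3 : orderOf (g : Λ ⧸ K) ∣ 1 := by
    rw [← Nat.Coprime.gcd_eq_one h]
    exact Nat.dvd_gcd (orderOf_dvd_of_pow_eq_one h1) (orderOf_dvd_of_pow_eq_one h2)
  have h4 : orderOf (g : Λ ⧸ K) = 1 := Nat.dvd_one.mp h3
  exact (QuotientGroup.eq_one_iff _).mp (orderOf_eq_one_iff.mp h4)

section

variable {F H L G : Type} [Field F] [NumberField F] [Field H] [NumberField H] [Field L]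
  [NumberField L] [Algebra F H] [Algebra H L] [Algebra F L] [IsScalarTower F H L]
  [CommGroup G] [Finite G] [MulSemiringAction G H] [IsGaloisGroup G F H]

theorem loc (v : HeightOneSpectrum (𝓞 F)) (P : HeightOneSpectrum (𝓞 L))
    (w : HeightOneSpectrum (𝓞 H))
    (hw : w.asIdeal.comap (algebraMap (𝓞 F) (𝓞 H)) = v.asIdeal)
    (hP : P.asIdeal.comap (algebraMap (𝓞 H) (𝓞 L)) = w.asIdeal)
    (Φ : L ≃ₐ[F] L) (hΦ : ∀ x : 𝓞 L,
      P.valuation L (Φ (x : L) - (x : L) ^ (Ideal.absNorm v.asIdeal)) < 1)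
    (γ : G) (hres : ∀ x : H, Φ (algebraMap H L x) = algebraMap H L (γ • x))
    (l a m : ℕ) (hl : l.Prime) (hlP : P.valuation L (l : L) = 1) (hm : ¬ l ∣ m)
    (hN : Ideal.absNorm v.asIdeal ^ orderOf γ = l ^ a * m + 1)
    (x : Hˣ) (hx : ∀ w' : HeightOneSpectrum (𝓞 H), Above {v} w' → w'.valuation H (x : H) = 1)
    (y : G → Lˣ) (hy : ∀ γ' : G, y γ' ^ (l ^ a) =
      Units.map (algebraMap H L : H →* L) (act γ' x)) :
    LocTriv (F := F) l v x ↔
      ∀ γ' : G, ((Units.map ((Φ : L →+* L) : L →* L))^[orderOf γ]) (y γ') = y γ' := by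
  have hwv : Above {v} w := ⟨v, rfl, hw⟩
  obtain ⟨htr1, htr2⟩ := Pool.Agent.K3h25.RS.t_TRANS F H G v w hwv
  set φ : Lˣ →* Lˣ := Units.map ((Φ : L →+* L) : L →* L) with hφdef
  set X : G → Lˣ := fun γ' => Units.map (algebraMap H L : H →* L) (act γ' x) with hXdef
  have hXv : ∀ γ' : G, X γ' ∈ unitsAt P := by
    intro γ'
    change P.valuation L (algebraMap H L (γ' • (x : H))) = 1
    refine val_eq w P hP _ ?_
    obtain ⟨w', hw', h1⟩ := htr1 γ'
    rw [← h1]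
    exact hx w' hw'
  have hyv : ∀ γ' : G, y γ' ∈ unitsAt P := by
    intro γ'
    have h1 : P.valuation L (((y γ' ^ (l ^ a) : Lˣ)) : L) = 1 := by
      rw [hy γ']; exact hXv γ'
    rw [Units.val_pow_eq_pow_val, map_pow] at h1
    change P.valuation L (y γ' : L) = 1
    exact (pow_eq_one_iff_of_nonneg zero_le' (pow_pos hl.pos a).ne').mp h1
  have hXf : ∀ γ' : G, (φ^[orderOf γ]) (X γ') = X γ' := by
    have h1 : ∀ (i : ℕ) (γ' : G), (φ^[i]) (X γ') = X (γ ^ i * γ') := by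
      intro i γ'
      induction i with
      | zero => rw [pow_zero, one_mul]; rfl
      | succ i ih =>
        rw [Function.iterate_succ_apply', ih]
        apply Units.ext
        change Φ (algebraMap H L ((γ ^ i * γ') • (x : H))) =
          algebraMap H L ((γ ^ (i + 1) * γ') • (x : H))
        rw [hres, smul_smul, ← mul_assoc, ← pow_succ']
    intro γ'
    rw [h1, pow_orderOf_eq_one, one_mul]
  have hcore : ∀ γ' : G, X γ' ^ m ∈ K1 P ↔ (φ^[orderOf γ]) (y γ') = y γ' := by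
    intro γ'
    refine core (K1 P) (unitsAt P) (K1_le P) φ (Ideal.absNorm v.asIdeal) (orderOf γ) (l ^ a) m
      (fun z hz => frobK P (Φ : L →+* L) _ hΦ z hz) ?_ hN (y γ') (X γ') (hyv γ') (hy γ') (hXf γ')
    intro ξ h1 h2
    refine root_eq_one P (l ^ a) ?_ ξ h1 h2
    rw [Nat.cast_pow, map_pow, hlP, one_pow]
  have hcore1 : ∀ γ' : G, X γ' ^ (l ^ a * m) ∈ K1 P := by
    intro γ'
    refine (core (K1 P) (unitsAt P) (K1_le P) φ (Ideal.absNorm v.asIdeal) (orderOf γ) 1 (l ^ a * m)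
      (fun z hz => frobK P (Φ : L →+* L) _ hΦ z hz) ?_ (by rw [hN, one_mul]) (X γ') (X γ')
      (hXv γ') (pow_one _) (hXf γ')).mpr (hXf γ')
    intro ξ h1 _
    rwa [pow_one] at h1
  have hK : ∀ (γ' : G) (n : ℕ), X γ' ^ n ∈ K1 P ↔ w.valuation H ((γ' • (x : H)) ^ n - 1) < 1 := by
    intro γ' n
    have h1 : algebraMap H L ((γ' • (x : H)) ^ n - 1) = ((X γ' ^ n : Lˣ) : L) - 1 := by
      rw [Units.val_pow_eq_pow_val, map_sub, map_pow, map_one]
      rfl
    rw [← val_lt_iff w P hP, mem_K1, h1]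
  constructor
  · rintro ⟨n, hn, hall⟩ γ'
    rw [← hcore]
    obtain ⟨w', hw', h1⟩ := htr1 γ'
    have h2 : X γ' ^ n ∈ K1 P := by
      rw [hK]
      have h3 := hall w' hw'
      rw [h1, smul_sub, smul_pow', smul_one] at h3
      exact h3
    have hcop : (l ^ a).Coprime n := Nat.Coprime.pow_left a ((Nat.Prime.coprime_iff_not_dvd hl).mpr hn)
    refine mem_of_coprime (K1 P) _ (l ^ a) n hcop ?_ ?_
    · rw [← pow_mul, mul_comm]; exact hcore1 γ'
    · rw [← pow_mul, mul_comm, pow_mul]; exact (K1 P).pow_mem h2 m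
  · intro hall
    refine ⟨m, hm, fun w' hw' => ?_⟩
    obtain ⟨γ', h1⟩ := htr2 w' hw'
    rw [h1, smul_sub, smul_pow', smul_one, ← hK]
    exact (hcore γ').mpr (hall γ')

theorem frob_zeta (v : HeightOneSpectrum (𝓞 F)) (P : HeightOneSpectrum (𝓞 L))
    (Φ : L ≃ₐ[F] L) (hΦ : ∀ x : 𝓞 L,
      P.valuation L (Φ (x : L) - (x : L) ^ (Ideal.absNorm v.asIdeal)) < 1)
    (l k : ℕ) (hlP : P.valuation L (l : L) = 1) (ζ : Lˣ) (hζ : ζ ^ (l ^ k) = 1) :
    Units.map ((Φ : L →+* L) : L →* L) ζ = ζ ^ Ideal.absNorm v.asIdeal := by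
  have h1 : P.valuation L (ζ : L) = 1 := by
    have h2 : (P.valuation L (ζ : L)) ^ (l ^ k) = 1 := by
      rw [← map_pow, ← Units.val_pow_eq_pow_val, hζ, Units.val_one, map_one]
    have hl0 : l ≠ 0 := by
      rintro rfl
      rw [Nat.cast_zero, map_zero] at hlP
      exact zero_ne_one hlP
    exact (pow_eq_one_iff_of_nonneg zero_le' (pow_ne_zero k hl0)).mp h2
  have h2 := frobK P (Φ : L →+* L) _ hΦ ζ h1
  rw [← mul_inv_eq_one]
  refine root_eq_one P (l ^ k) ?_ _ ?_ h2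
  · rw [Nat.cast_pow, map_pow, hlP, one_pow]
  · rw [mul_pow, ← map_pow, hζ, map_one, inv_pow, ← pow_mul, mul_comm _ (l ^ k), pow_mul, hζ,
      one_pow, inv_one, mul_one]

end

/-- the prime ideal under `P` -/
theorem exists_under (F H L : Type) [Field F] [NumberField F] [Field H] [NumberField H] [Field L]
    [NumberField L] [Algebra F H] [Algebra H L] [Algebra F L] [IsScalarTower F H L]
    (v : HeightOneSpectrum (𝓞 F)) (P : HeightOneSpectrum (𝓞 L))
    (h : P.asIdeal.comap (algebraMap (𝓞 F) (𝓞 L)) = v.asIdeal) :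
    ∃ w : HeightOneSpectrum (𝓞 H), P.asIdeal.comap (algebraMap (𝓞 H) (𝓞 L)) = w.asIdeal ∧
      w.asIdeal.comap (algebraMap (𝓞 F) (𝓞 H)) = v.asIdeal := by
  have := P.isPrime
  have h1 : (P.asIdeal.comap (algebraMap (𝓞 H) (𝓞 L))).comap (algebraMap (𝓞 F) (𝓞 H)) =
      v.asIdeal := by
    rw [← h, Ideal.comap_comap]
    congr 1
    ext x
    change algebraMap H L (algebraMap F H (x : F)) = algebraMap F L (x : F)
    rw [← IsScalarTower.algebraMap_apply]
  refine ⟨⟨P.asIdeal.comap (algebraMap (𝓞 H) (𝓞 L)), Ideal.comap_isPrime _ _, ?_⟩, rfl, h1⟩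
  intro h0
  apply v.ne_bot
  rw [← h1, h0]
  exact (RingHom.injective_iff_ker_eq_bot _).mp (FaithfulSMul.algebraMap_injective _ _)

theorem ringChar_iff {F : Type} [Field F] [NumberField F] (t : HeightOneSpectrum (𝓞 F)) (l : ℕ)
    (hl : l.Prime) : ringChar (𝓞 F ⧸ t.asIdeal) ≠ l ↔ t.valuation F (l : F) = 1 := by
  have hfin := finite_quot t
  have hmax := t.isMaximal
  have hnt : Nontrivial (𝓞 F ⧸ t.asIdeal) := Ideal.Quotient.nontrivial_iff.mpr t.isPrime.ne_top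
  have h1 : t.valuation F (l : F) = 1 ↔ ((l : 𝓞 F) ∉ t.asIdeal) := by
    rw [← t.valuation_eq_one_iff_notMem (K := F)]
    have : ((l : 𝓞 F) : F) = (l : F) := map_natCast (algebraMap (𝓞 F) F) l
    change _ ↔ t.valuation F ((l : 𝓞 F) : F) = 1
    rw [this]
  rw [h1, not_iff_not]
  constructor
  · intro h
    rw [← Ideal.Quotient.eq_zero_iff_mem, map_natCast, ← h]
    exact ringChar.Nat.cast_ringChar
  · intro h
    rw [← Ideal.Quotient.eq_zero_iff_mem, map_natCast] at h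
    have h2 : ringChar (𝓞 F ⧸ t.asIdeal) ∣ l := ringChar.dvd h
    rcases (Nat.dvd_prime hl).mp h2 with h3 | h3
    · exfalso
      exact CharP.ringChar_ne_one h3
    · exact h3

theorem t_APPROX (hCheb : S_CHEB) : S_APPROX := by
  classical
  intro F H G _ _ _ _ _ _ _ _ _ t γ l M Z hfrob hsq hl hchar hZ
  letI := Fintype.ofFinite G
  set q := Ideal.absNorm t.asIdeal with hq
  have hq1 : 1 < q := by
    have h0 : Ideal.absNorm t.asIdeal ≠ 0 := by
      intro h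
      exact t.ne_bot (Ideal.absNorm_eq_zero_iff.mp h)
    have h1 : Ideal.absNorm t.asIdeal ≠ 1 := by
      intro h
      exact t.isPrime.ne_top (Ideal.absNorm_eq_one_iff.mp h)
    omega
  have hford : 0 < orderOf γ := orderOf_pos γ
  have hq2 : 1 < q ^ orderOf γ := Nat.one_lt_pow hford.ne' hq1
  obtain ⟨a, m, hm, ham⟩ := Nat.exists_eq_pow_mul_and_not_dvd (n := q ^ orderOf γ - 1)
    (by omega) l hl.ne_one
  have hqN : q ^ orderOf γ = l ^ a * m + 1 := by omega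
  set M' := max M (a + 1) with hM'
  have hla : 0 < l ^ a := pow_pos hl.pos a
  have hlM : 0 < l ^ M' := pow_pos hl.pos M'
  let f0 : H[X] := (X ^ (l ^ M') - C 1) *
    ∏ z ∈ Z, ∏ γ' : G, (X ^ (l ^ a) - C (γ' • (z : H)))
  have hf0 : f0 ≠ 0 := by
    refine mul_ne_zero (X_pow_sub_C_ne_zero hlM _) (Finset.prod_ne_zero_iff.mpr fun z _ =>
      Finset.prod_ne_zero_iff.mpr fun γ' _ => X_pow_sub_C_ne_zero hla _)
  obtain ⟨L, _, _, _, _, _, hgal, hL⟩ := exists_gal F H f0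
  have hroot : ∀ g : H[X], g ∣ f0 → (g.map (algebraMap H L)).Splits := by
    intro g hg
    exact Splits.of_dvd hL (Polynomial.map_ne_zero hf0) (Polynomial.map_dvd _ hg)
  -- root of unity
  have hζ : ∃ ζ : Lˣ, orderOf ζ = l ^ M' := by
    have h1 : cyclotomic (l ^ M') H ∣ f0 := by
      refine Dvd.dvd.mul_right ?_ _
      rw [map_one]
      exact cyclotomic.dvd_X_pow_sub_one (l ^ M') H
    have h2 := hroot _ h1
    rw [map_cyclotomic] at h2
    obtain ⟨ζ, hζ⟩ := h2.exists_eval_eq_zero (degree_cyclotomic_pos (l ^ M') L hlM).ne'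
    have h3 : IsPrimitiveRoot ζ (l ^ M') := (isRoot_cyclotomic_iff_charZero hlM).mp hζ
    have h4 := h3.isUnit_unit hlM.ne'
    exact ⟨_, h4.eq_orderOf.symm⟩
  obtain ⟨ζ, hζ⟩ := hζ
  -- roots
  have hα : ∀ z ∈ Z, ∀ γ' : G, ∃ y : Lˣ, y ^ (l ^ a) =
      Units.map (algebraMap H L : H →* L) (act γ' z) := by
    intro z hz γ'
    have h1 : (X ^ (l ^ a) - C (γ' • (z : H))) ∣ f0 := by
      refine Dvd.dvd.mul_left ?_ _
      exact (Finset.dvd_prod_of_mem (fun γ' : G => (X ^ (l ^ a) - C (γ' • (z : H))))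
        (Finset.mem_univ γ')).trans (Finset.dvd_prod_of_mem
          (fun z : Hˣ => ∏ γ' : G, (X ^ (l ^ a) - C (γ' • (z : H)))) hz)
    have h2 := hroot _ h1
    rw [Polynomial.map_sub, Polynomial.map_pow, map_X, map_C] at h2
    obtain ⟨α, hα⟩ := h2.exists_eval_eq_zero (by
      rw [degree_X_pow_sub_C hla]
      exact_mod_cast hla.ne')
    rw [eval_sub, eval_pow, eval_X, eval_C, sub_eq_zero] at hα
    have hα0 : α ≠ 0 := by
      rintro rfl
      rw [zero_pow hla.ne'] at hα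
      have h3 : algebraMap H L ((act γ' z : Hˣ) : H) = 0 := hα.symm
      exact (act γ' z).ne_zero ((map_eq_zero _).mp h3)
    refine ⟨Units.mk0 α hα0, ?_⟩
    apply Units.ext
    rw [Units.val_pow_eq_pow_val, Units.val_mk0]
    exact hα
  have hαcl : ∀ x ∈ Subgroup.closure (Z : Set Hˣ), ∀ γ' : G, ∃ y : Lˣ, y ^ (l ^ a) =
      Units.map (algebraMap H L : H →* L) (act γ' x) := by
    intro x hx
    induction hx using Subgroup.closure_induction with
    | mem z hz => exact hα z hz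
    | one =>
      intro γ'
      refine ⟨1, ?_⟩
      have : act γ' (1 : Hˣ) = 1 := map_one _
      rw [one_pow, this, map_one]
    | mul x y _ _ hx hy =>
      intro γ'
      obtain ⟨u, hu⟩ := hx γ'
      obtain ⟨u', hu'⟩ := hy γ'
      refine ⟨u * u', ?_⟩
      have : act γ' (x * y) = act γ' x * act γ' y := map_mul _ _ _
      rw [mul_pow, this, map_mul, hu, hu']
    | inv x _ hx =>
      intro γ'
      obtain ⟨u, hu⟩ := hx γ'
      refine ⟨u⁻¹, ?_⟩
      have : act γ' (x⁻¹) = (act γ' x)⁻¹ := map_inv _ _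
      rw [inv_pow, this, map_inv, hu]
  -- the prime ideal over `t`
  obtain ⟨wt, hwt⟩ := exists_over (L := H) t
  obtain ⟨Pt, hPt⟩ := exists_over (L := L) wt
  have hPt' : Pt.asIdeal.comap (algebraMap (𝓞 F) (𝓞 L)) = t.asIdeal := by
    have e : algebraMap (𝓞 F) (𝓞 L) = (algebraMap (𝓞 H) (𝓞 L)).comp (algebraMap (𝓞 F) (𝓞 H)) := by
      ext x
      exact IsScalarTower.algebraMap_apply F H L (x : F)
    rw [← hwt, ← hPt, Ideal.comap_comap, e]
  obtain ⟨Φ, hΦt⟩ := exists_frob F L t Pt hPt'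
  have hres : ∀ x : H, Φ (algebraMap H L x) = algebraMap H L (γ • x) := fun x =>
    restrict t wt hwt hsq Pt hPt Φ hΦt γ (hfrob wt ⟨t, rfl, hwt⟩) x
  -- the exceptional prime ideals
  have hbad1 : {v : HeightOneSpectrum (𝓞 F) | v.valuation F (l : F) < 1}.Finite :=
    finite_lt _ (by exact_mod_cast hl.ne_zero)
  have hbad2 : ∀ z : Hˣ, {v : HeightOneSpectrum (𝓞 F) | ∃ w : HeightOneSpectrum (𝓞 H),
      w.valuation H (z : H) < 1 ∧ w.asIdeal.comap (algebraMap (𝓞 F) (𝓞 H)) = v.asIdeal}.Finite :=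
    fun z => finite_under _ z.ne_zero
  have hbad : ({v : HeightOneSpectrum (𝓞 F) | v.valuation F (l : F) < 1} ∪
      ⋃ z ∈ Z, ({v : HeightOneSpectrum (𝓞 F) | ∃ w : HeightOneSpectrum (𝓞 H),
        w.valuation H (z : H) < 1 ∧ w.asIdeal.comap (algebraMap (𝓞 F) (𝓞 H)) = v.asIdeal} ∪
        {v : HeightOneSpectrum (𝓞 F) | ∃ w : HeightOneSpectrum (𝓞 H),
        w.valuation H ((z⁻¹ : Hˣ) : H) < 1 ∧
          w.asIdeal.comap (algebraMap (𝓞 F) (𝓞 H)) = v.asIdeal})).Finite :=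
    hbad1.union (Z.finite_toSet.biUnion fun z _ => (hbad2 z).union (hbad2 z⁻¹))
  refine ⟨_, hCheb F L Φ hbad.toFinset, ?_⟩
  rintro v ⟨hv, P, ⟨v', hv', hPv⟩, hΦv⟩
  rw [Set.mem_singleton_iff] at hv'
  subst hv'
  rw [Set.Finite.mem_toFinset, Set.mem_union, not_or] at hv
  obtain ⟨hv1, hv2⟩ := hv
  obtain ⟨w, hPw, hw⟩ := exists_under F H L v' P hPv
  obtain ⟨htr1, htr2⟩ := Pool.Agent.K3h25.RS.t_TRANS F H G v' w ⟨v', rfl, hw⟩
  have hlv : v'.valuation F (l : F) = 1 := by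
    refine le_antisymm ?_ (not_lt.mp hv1)
    have h1 : v'.valuation F (algebraMap (𝓞 F) F (l : 𝓞 F)) ≤ 1 :=
      v'.valuation_le_one (K := F) (l : 𝓞 F)
    rwa [map_natCast] at h1
  have hlt : t.valuation F (l : F) = 1 := (ringChar_iff t l hl).mp hchar
  have hlP : P.valuation L (l : L) = 1 := by
    have h1 := val_eq v' P hPv _ hlv
    rwa [map_natCast] at h1
  have hlPt : Pt.valuation L (l : L) = 1 := by
    have h1 := val_eq t Pt hPt' _ hlt
    rwa [map_natCast] at h1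
  have hZv : ∀ z ∈ Z, ∀ w' : HeightOneSpectrum (𝓞 H), Above {v'} w' →
      w'.valuation H (z : H) = 1 := by
    rintro z hz w' ⟨v'', hv'', hw'⟩
    rw [Set.mem_singleton_iff] at hv''
    subst hv''
    have h1 : ¬ w'.valuation H (z : H) < 1 := by
      intro h
      apply hv2
      exact Set.mem_biUnion (show z ∈ (Z : Set Hˣ) from hz) (Or.inl ⟨w', h, hw'⟩)
    have h2 : ¬ w'.valuation H ((z⁻¹ : Hˣ) : H) < 1 := by
      intro h
      apply hv2
      exact Set.mem_biUnion (show z ∈ (Z : Set Hˣ) from hz) (Or.inr ⟨w', h, hw'⟩)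
    refine le_antisymm ?_ (not_lt.mp h1)
    rw [Units.val_inv_eq_inv_val, map_inv₀] at h2
    by_contra hcon
    exact h2 (inv_lt_one_of_one_lt₀ (not_le.mp hcon))
  have hcl : ∀ v₀ : HeightOneSpectrum (𝓞 F), (∀ z ∈ Z, ∀ w' : HeightOneSpectrum (𝓞 H),
      Above {v₀} w' → w'.valuation H (z : H) = 1) → ∀ x ∈ Subgroup.closure (Z : Set Hˣ),
      ∀ w' : HeightOneSpectrum (𝓞 H), Above {v₀} w' → w'.valuation H (x : H) = 1 := by
    intro v₀ h x hx w' hw'
    have h1 : Subgroup.closure (Z : Set Hˣ) ≤ unitsAt w' := by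
      rw [Subgroup.closure_le]
      intro z hz
      exact h z hz w' hw'
    exact h1 hx
  have hmodM' : Ideal.absNorm v'.asIdeal ≡ q [MOD l ^ M'] := by
    have hζ1 : ζ ^ (l ^ M') = 1 := by rw [← hζ]; exact pow_orderOf_eq_one ζ
    have h1 := frob_zeta v' P Φ hΦv l M' hlP ζ hζ1
    have h2 := frob_zeta t Pt Φ hΦt l M' hlPt ζ hζ1
    rw [h1] at h2
    rw [← hζ]
    exact pow_eq_pow_iff_modEq.mp h2
  have hmoda : Ideal.absNorm v'.asIdeal ≡ q [MOD l ^ (a + 1)] :=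
    hmodM'.of_dvd (pow_dvd_pow l (le_max_right _ _))
  -- the exponent for `v`
  obtain ⟨m', hm', hvN⟩ : ∃ m' : ℕ, ¬ l ∣ m' ∧
      Ideal.absNorm v'.asIdeal ^ orderOf γ = l ^ a * m' + 1 := by
    have h1 : Ideal.absNorm v'.asIdeal ^ orderOf γ ≡ l ^ a * m + 1 [MOD l ^ (a + 1)] := by
      rw [← hqN]; exact hmoda.pow _
    have h0 : 0 < Ideal.absNorm v'.asIdeal ^ orderOf γ := by
      refine pow_pos (Nat.pos_of_ne_zero fun h => ?_) _
      exact v'.ne_bot (Ideal.absNorm_eq_zero_iff.mp h)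
    obtain ⟨k, hk⟩ : ∃ k, Ideal.absNorm v'.asIdeal ^ orderOf γ = k + 1 :=
      ⟨_, (Nat.succ_pred_eq_of_pos h0).symm⟩
    rw [hk] at h1
    have h2 : k ≡ l ^ a * m [MOD l ^ (a + 1)] := Nat.ModEq.add_right_cancel' 1 h1
    have h3 : l ^ a ∣ k := by
      have h4 : k ≡ l ^ a * m [MOD l ^ a] := h2.of_dvd (pow_dvd_pow l (Nat.le_succ a))
      exact (h4.dvd_iff dvd_rfl).mpr (dvd_mul_right _ _)
    obtain ⟨m', rfl⟩ := h3
    refine ⟨m', ?_, hk⟩
    have h5 : m' ≡ m [MOD l] := by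
      rw [pow_succ] at h2
      exact Nat.ModEq.mul_left_cancel' hla.ne' h2
    intro h6
    exact hm ((h5.dvd_iff dvd_rfl).mp h6)
  refine ⟨?_, (ringChar_iff v' l hl).mpr hlv, hmodM'.of_dvd (pow_dvd_pow l (le_max_left _ _)), ?_⟩
  · intro w' hw' x
    obtain ⟨g, hg⟩ := htr2 w' hw'
    rw [hg, smul_sub, smul_pow', smul_smul, mul_comm g γ, ← smul_smul]
    have h1 : ∀ y : 𝓞 H, w.valuation H (γ • (y : H) - (y : H) ^ (Ideal.absNorm v'.asIdeal)) < 1 := by
      intro y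
      rw [← val_lt_iff w P hPw, map_sub, ← hres, map_pow]
      exact hΦv (algebraMap (𝓞 H) (𝓞 L) y)
    exact h1 (g • x)
  · intro x hx
    choose y hy using hαcl x hx
    rw [loc v' P w hw hPw Φ hΦv γ hres l a m' hl hlP hm' hvN x (hcl v' hZv x hx) y hy,
      loc t Pt wt hwt hPt Φ hΦt γ hres l a m hl hlPt hm hqN x (hcl t hZ x hx) y hy]

end Pool.Agent.K3h8.RS
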