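import Pool.Agent.K3h30.RS.Stm2
import Pool.Agent.K3h43.RS.Split
import Pool.Agent.K3h25.RS.Trans

/-!
# Project RS, brick APPROX: the group theoretic core and valuations
-/

set_option autoImplicit false

open NumberField IsDedekindDomain Polynomial

noncomputable section

namespace Pool.Agent.K3h8.RS

open Pool.Agent.K3h30.RS Pool.Agent.K3h43.RS

/-- the group theoretic core -/
theorem core {Λ : Type*} [CommGroup Λ] (K Un : Subgroup Λ) (hK : K ≤ Un) (φ : Λ →* Λ)
    (N f n m : ℕ) (hφ : ∀ y ∈ Un, φ y * (y ^ N)⁻¹ ∈ K)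
    (hroot : ∀ ξ : Λ, ξ ^ n = 1 → ξ ∈ K → ξ = 1) (hN : N ^ f = n * m + 1) (y X : Λ) (hy : y ∈ Un)
    (hyX : y ^ n = X) (hX : (φ^[f]) X = X) : X ^ m ∈ K ↔ (φ^[f]) y = y := by
  have hit : ∀ i : ℕ, (φ^[i]) y ∈ Un ∧ (φ^[i]) y * (y ^ (N ^ i))⁻¹ ∈ K := by
    intro i
    induction i with
    | zero =>
      refine ⟨hy, ?_⟩
      rw [pow_zero, pow_one, Function.iterate_zero_apply, mul_inv_cancel]
      exact K.one_mem
    | succ i ih =>
      rw [Function.iterate_succ_apply']
      obtain ⟨h1, h2⟩ := ih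
      have h3 := hφ _ h1
      constructor
      · have h4 := Un.mul_mem (hK h3) (Un.pow_mem h1 N)
        rwa [inv_mul_cancel_right] at h4
      · have h4 := K.mul_mem h3 (K.pow_mem h2 N)
        have e : φ ((φ^[i]) y) * (((φ^[i]) y) ^ N)⁻¹ * ((φ^[i]) y * (y ^ (N ^ i))⁻¹) ^ N =
            φ ((φ^[i]) y) * (y ^ (N ^ (i + 1)))⁻¹ := by
          rw [mul_pow, mul_assoc, inv_mul_cancel_left, inv_pow, ← pow_mul, ← pow_succ]
        rwa [e] at h4
  obtain ⟨_, h2⟩ := hit f
  have hpow : ((φ^[f]) y * y⁻¹) ^ n = 1 := by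
    have h3 : ((φ^[f]) y) ^ n = (φ^[f]) (y ^ n) := (iterate_map_pow φ f y n).symm
    rw [mul_pow, h3, hyX, hX, inv_pow, hyX, mul_inv_cancel]
  have hcong : ((φ^[f]) y * y⁻¹) * (X ^ m)⁻¹ ∈ K := by
    have e : ((φ^[f]) y * y⁻¹) * (X ^ m)⁻¹ = (φ^[f]) y * (y ^ (N ^ f))⁻¹ := by
      rw [hN, ← hyX, ← pow_mul, pow_succ, mul_inv, mul_assoc, mul_comm (y⁻¹)]
    rw [e]
    exact h2
  constructor
  · intro h
    have h3 := K.mul_mem hcong h
    rw [inv_mul_cancel_right] at h3
    exact mul_inv_eq_one.mp (hroot _ hpow h3)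
  · intro h
    rw [h, mul_inv_cancel, one_mul] at hcong
    exact (inv_mem_iff (H := K)).mp hcong

variable {L : Type} [Field L] [NumberField L]

/-- the principal units at `P` -/
def K1 (P : HeightOneSpectrum (𝓞 L)) : Subgroup Lˣ where
  carrier := {x | P.valuation L ((x : L) - 1) < 1}
  mul_mem' := by
    intro x y hx hy
    change P.valuation L _ < 1
    change P.valuation L _ < 1 at hx hy
    have hx1 : P.valuation L (x : L) = 1 := by
      have h := Valuation.map_one_add_of_lt (P.valuation L) hx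
      rwa [add_sub_cancel] at h
    have e : ((x * y : Lˣ) : L) - 1 = (x : L) * ((y : L) - 1) + ((x : L) - 1) := by
      rw [Units.val_mul]; ring
    rw [e]
    refine lt_of_le_of_lt (Valuation.map_add _ _ _) (max_lt ?_ hx)
    rw [map_mul, hx1, one_mul]
    exact hy
  one_mem' := by
    change P.valuation L _ < 1
    rw [Units.val_one, sub_self, map_zero]
    exact zero_lt_one
  inv_mem' := by
    intro x hx
    change P.valuation L _ < 1
    change P.valuation L _ < 1 at hx
    have hx1 : P.valuation L (x : L) = 1 := by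
      have h := Valuation.map_one_add_of_lt (P.valuation L) hx
      rwa [add_sub_cancel] at h
    have e : ((x⁻¹ : Lˣ) : L) - 1 = -(((x : L) - 1) * (x : L)⁻¹) := by
      rw [Units.val_inv_eq_inv_val]
      field_simp
      ring
    rw [e, Valuation.map_neg, map_mul, map_inv₀, hx1, inv_one, mul_one]
    exact hx

theorem mem_K1 (P : HeightOneSpectrum (𝓞 L)) (x : Lˣ) :
    x ∈ K1 P ↔ P.valuation L ((x : L) - 1) < 1 := Iff.rfl

theorem K1_le (P : HeightOneSpectrum (𝓞 L)) : K1 P ≤ unitsAt P := by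
  intro x hx
  change P.valuation L _ < 1 at hx
  change P.valuation L _ = 1
  have h := Valuation.map_one_add_of_lt (P.valuation L) hx
  rwa [add_sub_cancel] at h

/-- congruent units -/
theorem div_mem_K1 (P : HeightOneSpectrum (𝓞 L)) (x y : Lˣ) (hy : P.valuation L (y : L) = 1) :
    x * y⁻¹ ∈ K1 P ↔ P.valuation L ((x : L) - (y : L)) < 1 := by
  rw [mem_K1]
  have e : ((x * y⁻¹ : Lˣ) : L) - 1 = ((x : L) - (y : L)) * (y : L)⁻¹ := by
    rw [Units.val_mul, Units.val_inv_eq_inv_val]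
    have : (y : L) ≠ 0 := y.ne_zero
    field_simp
  rw [e, map_mul, map_inv₀, hy, inv_one, mul_one]

/-- Frobenius at units -/
theorem frobU (P : HeightOneSpectrum (𝓞 L)) (φ : L →+* L) (q : ℕ)
    (hφ : ∀ x : 𝓞 L, P.valuation L (φ (x : L) - (x : L) ^ q) < 1) (x : L)
    (hx : P.valuation L x = 1) : P.valuation L (φ x - x ^ q) < 1 := by
  obtain ⟨a, ⟨b, hb⟩, hab⟩ := P.exists_primeCompl_mul_eq_of_integer x hx.le
  have hb1 : P.valuation L (b : L) = 1 := (P.valuation_eq_one_iff_notMem (K := L)).2 hb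
  have ha1 : P.valuation L (a : L) ≤ 1 := P.valuation_le_one (K := L) a
  have h1 := hφ a
  have h2 := hφ b
  have hbq : P.valuation L ((b : L) ^ q) = 1 := by rw [map_pow, hb1, one_pow]
  have hγb : P.valuation L (φ (b : L)) = 1 := by
    have h3 := Valuation.map_sub_eq_of_lt_right (P.valuation L)
      (x := φ (b : L) - (b : L) ^ q) (y := -(b : L) ^ q) (by rw [Valuation.map_neg, hbq]; exact h2)
    rw [sub_neg_eq_add, sub_add_cancel, Valuation.map_neg, hbq] at h3
    exact h3
  have hb0 : (b : L) ≠ 0 := fun h => by rw [h, map_zero] at hb1; exact zero_ne_one hb1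
  have hγb0 : φ (b : L) ≠ 0 := fun h => by rw [h, map_zero] at hγb; exact zero_ne_one hγb
  have hxe : x = (a : L) / (b : L) := by
    rw [eq_div_iff hb0]
    exact hab
  have hγx : φ x = φ (a : L) / φ (b : L) := by
    rw [hxe, map_div₀]
  have e : φ x - x ^ q = ((φ (a : L) - (a : L) ^ q) * (b : L) ^ q -
      (a : L) ^ q * (φ (b : L) - (b : L) ^ q)) / (φ (b : L) * (b : L) ^ q) := by
    rw [hγx, hxe, div_pow]
    have hbq0 : (b : L) ^ q ≠ 0 := pow_ne_zero _ hb0
    field_simp
    ring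
  rw [e, map_div₀, map_mul (P.valuation L) (φ (b : L)), hγb, hbq, one_mul, div_one]
  refine lt_of_le_of_lt (Valuation.map_sub _ _ _) (max_lt ?_ ?_)
  · rw [map_mul, hbq, mul_one]
    exact h1
  · rw [map_mul]
    refine lt_of_le_of_lt (mul_le_of_le_one_left' ?_) h2
    rw [map_pow]
    exact pow_le_one' ha1 q

/-- Frobenius in the group of units -/
theorem frobK (P : HeightOneSpectrum (𝓞 L)) (φ : L →+* L) (q : ℕ)
    (hφ : ∀ x : 𝓞 L, P.valuation L (φ (x : L) - (x : L) ^ q) < 1) (y : Lˣ) (hy : y ∈ unitsAt P) :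
    Units.map (φ : L →* L) y * (y ^ q)⁻¹ ∈ K1 P := by
  have hy1 : P.valuation L (y : L) = 1 := hy
  have hyq : P.valuation L ((y ^ q : Lˣ) : L) = 1 := by
    rw [Units.val_pow_eq_pow_val, map_pow, hy1, one_pow]
  rw [div_mem_K1 P _ _ hyq, Units.val_pow_eq_pow_val]
  exact frobU P φ q hφ (y : L) hy1

/-- roots of unity are distinct modulo `P` -/
theorem root_eq_one (P : HeightOneSpectrum (𝓞 L)) (n : ℕ) (hn : P.valuation L (n : L) = 1)
    (ξ : Lˣ) (h1 : ξ ^ n = 1) (h2 : ξ ∈ K1 P) : ξ = 1 := by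
  by_contra hne
  have h3 : (ξ : L) - 1 ≠ 0 := by
    intro h
    apply hne
    rw [sub_eq_zero] at h
    exact Units.ext h
  have h4 : (∑ i ∈ Finset.range n, (ξ : L) ^ i) = 0 := by
    have h5 := geom_sum_mul (ξ : L) n
    have h6 : (ξ : L) ^ n = 1 := by
      rw [← Units.val_pow_eq_pow_val, h1, Units.val_one]
    rw [h6, sub_self] at h5
    exact (mul_eq_zero.mp h5).resolve_right h3
  have h5 : (n : L) = -∑ i ∈ Finset.range n, ((ξ : L) ^ i - 1) := by
    rw [Finset.sum_sub_distrib, h4]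
    simp
  have h6 : P.valuation L (∑ i ∈ Finset.range n, ((ξ : L) ^ i - 1)) < 1 := by
    refine Valuation.map_sum_lt _ one_ne_zero fun i _ => ?_
    have h7 := (K1 P).pow_mem h2 i
    rw [mem_K1, Units.val_pow_eq_pow_val] at h7
    exact h7
  rw [h5, Valuation.map_neg] at hn
  exact h6.ne hn

variable {H : Type} [Field H] [NumberField H] [Algebra H L]

theorem val_lt (w : HeightOneSpectrum (𝓞 H)) (P : HeightOneSpectrum (𝓞 L))
    (h : P.asIdeal.comap (algebraMap (𝓞 H) (𝓞 L)) = w.asIdeal) (x : H)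
    (hx : w.valuation H x < 1) : P.valuation L (algebraMap H L x) < 1 := by
  obtain ⟨a, ⟨b, hb⟩, hab⟩ := w.exists_primeCompl_mul_eq_of_integer x hx.le
  have hbP : P.valuation L (algebraMap H L (algebraMap (𝓞 H) H b)) = 1 := by
    have h1 : P.valuation L (algebraMap (𝓞 L) L (algebraMap (𝓞 H) (𝓞 L) b)) = 1 := by
      rw [P.valuation_eq_one_iff_notMem, ← Ideal.mem_comap, h]
      exact hb
    exact h1
  have ha : a ∈ w.asIdeal := by
    rw [← w.valuation_lt_one_iff_mem (K := H)]
    change w.valuation H (algebraMap (𝓞 H) H a) < 1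
    rw [← hab, map_mul]
    have hb1 : w.valuation H (algebraMap (𝓞 H) H b) = 1 :=
      (w.valuation_eq_one_iff_notMem (K := H)).2 hb
    change w.valuation H x * w.valuation H (algebraMap (𝓞 H) H b) < 1
    rw [hb1, mul_one]
    exact hx
  have haP : P.valuation L (algebraMap H L (algebraMap (𝓞 H) H a)) < 1 := by
    have h1 : P.valuation L (algebraMap (𝓞 L) L (algebraMap (𝓞 H) (𝓞 L) a)) < 1 := by
      rw [P.valuation_lt_one_iff_mem, ← Ideal.mem_comap, h]
      exact ha
    exact h1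
  rw [← hab] at haP
  change P.valuation L (algebraMap H L (x * algebraMap (𝓞 H) H b)) < 1 at haP
  rwa [map_mul, map_mul, hbP, mul_one] at haP

theorem val_eq (w : HeightOneSpectrum (𝓞 H)) (P : HeightOneSpectrum (𝓞 L))
    (h : P.asIdeal.comap (algebraMap (𝓞 H) (𝓞 L)) = w.asIdeal) (x : H)
    (hx : w.valuation H x = 1) : P.valuation L (algebraMap H L x) = 1 := by
  obtain ⟨a, b, ha, hb, hab⟩ := unit_frac w x hx
  have hbP : P.valuation L (algebraMap H L (algebraMap (𝓞 H) H b)) = 1 := by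
    have h1 : P.valuation L (algebraMap (𝓞 L) L (algebraMap (𝓞 H) (𝓞 L) b)) = 1 := by
      rw [P.valuation_eq_one_iff_notMem, ← Ideal.mem_comap, h]
      exact hb
    exact h1
  have haP : P.valuation L (algebraMap H L (algebraMap (𝓞 H) H a)) = 1 := by
    have h1 : P.valuation L (algebraMap (𝓞 L) L (algebraMap (𝓞 H) (𝓞 L) a)) = 1 := by
      rw [P.valuation_eq_one_iff_notMem, ← Ideal.mem_comap, h]
      exact ha
    exact h1
  change x * algebraMap (𝓞 H) H b = algebraMap (𝓞 H) H a at hab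
  rw [← hab, map_mul, map_mul, hbP, mul_one] at haP
  exact haP

theorem val_lt_iff (w : HeightOneSpectrum (𝓞 H)) (P : HeightOneSpectrum (𝓞 L))
    (h : P.asIdeal.comap (algebraMap (𝓞 H) (𝓞 L)) = w.asIdeal) (x : H) :
    P.valuation L (algebraMap H L x) < 1 ↔ w.valuation H x < 1 := by
  constructor
  · intro hP
    rcases lt_trichotomy (w.valuation H x) 1 with h1 | h1 | h1
    · exact h1
    · exact absurd hP (val_eq w P h x h1).not_lt
    · exfalso
      have hx0 : x ≠ 0 := by
        rintro rfl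
        rw [map_zero] at h1
        exact not_lt_zero' h1
      have h2 : w.valuation H x⁻¹ < 1 := by
        rw [map_inv₀]
        exact inv_lt_one_of_one_lt₀ h1
      have h3 := val_lt w P h _ h2
      rw [map_inv₀, map_inv₀] at h3
      have h4 : P.valuation L (algebraMap H L x) ≠ 0 := by
        rw [Valuation.ne_zero_iff]
        exact (_root_.map_ne_zero _).mpr hx0
      exact absurd h3 (not_lt.mpr ((one_le_inv₀ (zero_lt_iff.mpr h4)).mpr hP.le))
  · exact val_lt w P h x

end Pool.Agent.K3h8.RS
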