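import Pool.Agent.K3h8.RS.Core

/-!
# Project RS, brick APPROX: the field `L` and the Frobenius automorphism
-/

set_option autoImplicit false

open NumberField IsDedekindDomain Polynomial

noncomputable section

namespace Pool.Agent.K3h8.RS

open Pool.Agent.K3h30.RS Pool.Agent.K3h43.RS

theorem exists_gal (F H : Type) [Field F] [NumberField F] [Field H] [NumberField H] [Algebra F H]
    (f : H[X]) :
    ∃ (L : Type) (_ : Field L) (_ : NumberField L) (_ : Algebra H L) (_ : Algebra F L)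
      (_ : IsScalarTower F H L), IsGalois F L ∧ (f.map (algebraMap H L)).Splits := by
  obtain ⟨L0, _, _, _, hL0⟩ := exists_L H f
  letI : Algebra F L0 := ((algebraMap H L0).comp (algebraMap F H)).toAlgebra
  have : IsScalarTower F H L0 := IsScalarTower.of_algebraMap_eq' rfl
  have : FiniteDimensional F L0 := inferInstance
  let N := IntermediateField.normalClosure F L0 (AlgebraicClosure L0)
  have : FiniteDimensional F N := normalClosure.is_finiteDimensional F L0 _
  have : Normal F N := normalClosure.normal F L0 _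
  have h0 : NumberField N := NumberField.of_module_finite F N
  letI : Algebra H N := ((algebraMap L0 N).comp (algebraMap H L0)).toAlgebra
  have h1 : IsScalarTower H L0 N := IsScalarTower.of_algebraMap_eq' rfl
  have h2 : IsScalarTower F H N := by
    refine IsScalarTower.of_algebraMap_eq fun x => ?_
    change algebraMap F N x = algebraMap L0 N (algebraMap H L0 (algebraMap F H x))
    rw [← IsScalarTower.algebraMap_apply F H L0, ← IsScalarTower.algebraMap_apply F L0 N]
  refine ⟨N, inferInstance, h0, inferInstance, inferInstance, h2, { }, ?_⟩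
  have h3 := hL0.map (algebraMap L0 N)
  rwa [Polynomial.map_map, ← IsScalarTower.algebraMap_eq H L0 N] at h3

/-- existence of the Frobenius automorphism -/
theorem exists_frob (F L : Type) [Field F] [NumberField F] [Field L] [NumberField L] [Algebra F L]
    [IsGalois F L] (t : HeightOneSpectrum (𝓞 F)) (P : HeightOneSpectrum (𝓞 L))
    (hP : P.asIdeal.comap (algebraMap (𝓞 F) (𝓞 L)) = t.asIdeal) :
    ∃ Φ : L ≃ₐ[F] L, ∀ x : 𝓞 L,
      P.valuation L (Φ (x : L) - (x : L) ^ (Ideal.absNorm t.asIdeal)) < 1 := by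
  have hG : IsGaloisGroup (L ≃ₐ[F] L) (𝓞 F) (𝓞 L) := inferInstance
  have hs : SMulCommClass (L ≃ₐ[F] L) (𝓞 F) (𝓞 L) := hG.commutes
  have hinv : Algebra.IsInvariant (𝓞 F) (𝓞 L) (L ≃ₐ[F] L) := hG.isInvariant
  have hfin := finite_quot P
  have hpr := P.isPrime
  obtain ⟨Φ, hΦ⟩ := IsArithFrobAt.exists_of_isInvariant (𝓞 F) (L ≃ₐ[F] L) P.asIdeal
  refine ⟨Φ, fun x => ?_⟩
  have h1 : Φ • x - x ^ Nat.card (𝓞 F ⧸ P.asIdeal.under (𝓞 F)) ∈ P.asIdeal := hΦ x
  have h2 : P.asIdeal.under (𝓞 F) = t.asIdeal := hP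
  rw [h2, ← Submodule.cardQuot_apply, ← Ideal.absNorm_apply,
    ← P.valuation_lt_one_iff_mem (K := L)] at h1
  have h3 : ((Φ • x - x ^ Ideal.absNorm t.asIdeal : 𝓞 L) : L) =
      Φ (x : L) - (x : L) ^ (Ideal.absNorm t.asIdeal) := by
    push_cast
    rfl
  rw [← h3]
  exact h1

section

variable {F H L G : Type} [Field F] [NumberField F] [Field H] [NumberField H] [Field L]
  [NumberField L] [Algebra F H] [Algebra H L] [Algebra F L] [IsScalarTower F H L]
  [CommGroup G] [Finite G] [MulSemiringAction G H] [IsGaloisGroup G F H]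

/-- unramified prime ideals -/
theorem unram (t : HeightOneSpectrum (𝓞 F)) (w : HeightOneSpectrum (𝓞 H))
    (hw : w.asIdeal.comap (algebraMap (𝓞 F) (𝓞 H)) = t.asIdeal)
    (hsq : Squarefree (t.asIdeal.map (algebraMap (𝓞 F) (𝓞 H)))) :
    haveI := w.isPrime
    Algebra.IsUnramifiedAt (𝓞 F) w.asIdeal := by
  have := w.isPrime
  have := t.isPrime
  have hov : w.asIdeal.LiesOver t.asIdeal := ⟨hw.symm⟩
  have hle : t.asIdeal.map (algebraMap (𝓞 F) (𝓞 H)) ≤ w.asIdeal :=
    Ideal.map_le_iff_le_comap.mpr hw.ge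
  have h1 : Ideal.ramificationIdx' t.asIdeal w.asIdeal = 1 := by
    by_contra hne
    have h2 := (Ideal.ramificationIdx'_ne_one_iff hle).mp hne
    have h3 : w.asIdeal * w.asIdeal ∣ t.asIdeal.map (algebraMap (𝓞 F) (𝓞 H)) := by
      rw [← pow_two]
      exact Ideal.dvd_iff_le.mpr h2
    have h4 := hsq _ h3
    exact w.isPrime.ne_top (Ideal.isUnit_iff.mp h4)
  letI := Localization.AtPrime.algebraOfLiesOver t.asIdeal w.asIdeal
  rw [Algebra.isUnramifiedAt_iff_map_eq (𝓞 F) t.asIdeal w.asIdeal]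
  refine ⟨?_, (Ideal.IsDedekindDomain.ramificationIdx'_eq_one_iff w.ne_bot hle).mp h1⟩
  infer_instance

/-- the Frobenius automorphism on the subfield -/
theorem restrict (t : HeightOneSpectrum (𝓞 F)) (w : HeightOneSpectrum (𝓞 H))
    (hw : w.asIdeal.comap (algebraMap (𝓞 F) (𝓞 H)) = t.asIdeal)
    (hsq : Squarefree (t.asIdeal.map (algebraMap (𝓞 F) (𝓞 H))))
    (P : HeightOneSpectrum (𝓞 L)) (hP : P.asIdeal.comap (algebraMap (𝓞 H) (𝓞 L)) = w.asIdeal)
    (Φ : L ≃ₐ[F] L) (hΦ : ∀ x : 𝓞 L,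
      P.valuation L (Φ (x : L) - (x : L) ^ (Ideal.absNorm t.asIdeal)) < 1)
    (γ : G) (hγ : ∀ x : 𝓞 H,
      w.valuation H (γ • (x : H) - (x : H) ^ (Ideal.absNorm t.asIdeal)) < 1) (x : H) :
    Φ (algebraMap H L x) = algebraMap H L (γ • x) := by
  have := w.isPrime
  have hun := unram t w hw hsq
  have hs : SMulCommClass G (𝓞 F) (𝓞 H) :=
    (inferInstance : IsGaloisGroup G (𝓞 F) (𝓞 H)).commutes
  have hgal : IsGalois F H := IsGaloisGroup.isGalois G F H
  have hnat : Nat.card (𝓞 F ⧸ w.asIdeal.under (𝓞 F)) = Ideal.absNorm t.asIdeal := by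
    have h2 : w.asIdeal.under (𝓞 F) = t.asIdeal := hw
    rw [h2, ← Submodule.cardQuot_apply, ← Ideal.absNorm_apply]
  let φ : 𝓞 H →ₐ[𝓞 F] 𝓞 H := (galRestrict (𝓞 F) F H (𝓞 H) (Φ.restrictNormal H)).toAlgHom
  let ψ : 𝓞 H →ₐ[𝓞 F] 𝓞 H := MulSemiringAction.toAlgHom (𝓞 F) (𝓞 H) γ
  have hφ : φ.IsArithFrobAt w.asIdeal := by
    intro y
    rw [hnat, ← w.valuation_lt_one_iff_mem (K := H)]
    change w.valuation H (algebraMap (𝓞 H) H (φ y - y ^ Ideal.absNorm t.asIdeal)) < 1
    rw [← val_lt_iff w P hP]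
    have h1 : algebraMap (𝓞 H) H (φ y) = Φ.restrictNormal H (algebraMap (𝓞 H) H y) :=
      algebraMap_galRestrict_apply (𝓞 F) (Φ.restrictNormal H) y
    rw [map_sub, map_sub, h1, AlgEquiv.restrictNormal_commutes, map_pow, map_pow]
    exact hΦ (algebraMap (𝓞 H) (𝓞 L) y)
  have hψ : ψ.IsArithFrobAt w.asIdeal := by
    intro y
    rw [hnat, ← w.valuation_lt_one_iff_mem (K := H)]
    exact hγ y
  have heq : φ = ψ := hφ.eq_of_isUnramifiedAt hψ w.asIdeal.primeCompl_le_nonZeroDivisors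
  have hint : ∀ y : 𝓞 H, Φ (algebraMap H L (y : H)) = algebraMap H L (γ • (y : H)) := by
    intro y
    rw [← AlgEquiv.restrictNormal_commutes]
    congr 1
    have h1 : algebraMap (𝓞 H) H (φ y) = Φ.restrictNormal H (algebraMap (𝓞 H) H y) :=
      algebraMap_galRestrict_apply (𝓞 F) (Φ.restrictNormal H) y
    rw [heq] at h1
    exact h1.symm
  obtain ⟨a, b, _, hab⟩ := IsFractionRing.div_surjective (A := 𝓞 H) x
  rw [← hab, smul_div₀', map_div₀, map_div₀, map_div₀]
  congr 1
  · exact hint a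
  · exact hint b

end

end Pool.Agent.K3h8.RS
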